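import Pool.Agent.Run7.h668.TK.Iface

/-! Piece `CN1` of the project TK (MP_0df73a_co). -/

set_option autoImplicit false

namespace Pool.Agent.Run7.h547.TK

open Pool.Agent.Run7.h668.TK

theorem hom_neg (ℓ : List ℕ) : ∀ b : ℤ, b < 0 → hom ℓ b = 0 := by
  induction ℓ with
  | nil =>
    intro b hb
    simp [hom, hb.ne]
  | cons A ℓ ih =>
    intro b hb
    rw [hom]
    refine Finset.sum_eq_zero fun e _ => ih _ ?_
    omega

theorem hom_symm (ℓ : List ℕ) : ∀ b : ℤ, hom ℓ b = hom ℓ (ℓ.sum - b) := by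
  induction ℓ with
  | nil =>
    intro b
    simp [hom]
  | cons A ℓ ih =>
    intro b
    rw [hom, hom, ← Finset.sum_range_reflect]
    refine Finset.sum_congr rfl fun e he => ?_
    have he := Finset.mem_range.1 he
    rw [ih]
    congr 1
    rw [List.sum_cons]
    have : ((A + 1 - 1 - e : ℕ) : ℤ) = A - e := by omega
    rw [this]
    push_cast
    ring

theorem hom_diff (A : ℕ) (ℓ : List ℕ) (b : ℤ) :
    hom (A :: ℓ) b - hom (A :: ℓ) (b - 1) = hom ℓ b - hom ℓ (b - (A + 1)) := by
  rw [hom, hom, ← Finset.sum_sub_distrib]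
  have h := Finset.sum_range_sub' (fun e : ℕ => hom ℓ (b - e)) (A + 1)
  simp only [Nat.cast_zero, sub_zero] at h
  rw [← (by push_cast; rfl : hom ℓ (b - ((A + 1 : ℕ) : ℤ)) = hom ℓ (b - (A + 1))), ← h]
  refine Finset.sum_congr rfl fun e _ => ?_
  congr 2
  push_cast
  ring

theorem tele (G : ℕ → ℤ) (e0 : ℕ) : ∀ n : ℕ,
    ∑ e ∈ Finset.range n, (if e0 ≤ e then G e - G (e + 1) else 0) =
      if e0 ≤ n then G e0 - G n else 0 := by
  intro n
  induction n with
  | zero =>
    by_cases h : e0 ≤ 0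
    · have : e0 = 0 := by omega
      subst this
      simp
    · simp [h]
  | succ n ih =>
    rw [Finset.sum_range_succ, ih]
    by_cases h : e0 ≤ n
    · rw [if_pos h, if_pos h, if_pos (by omega)]
      ring
    · rw [if_neg h, if_neg h]
      by_cases h2 : e0 ≤ n + 1
      · have : e0 = n + 1 := by omega
        subst this
        simp
      · rw [if_neg h2]
        simp

theorem t_CN1 : S_CN1 := by
  intro ℓ
  induction ℓ with
  | nil =>
    intro b hb
    have : b = 0 := by simpa using hb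
    subst this
    simp [cnt, hom]
  | cons A ℓ ih =>
    intro b hb
    rw [List.sum_cons] at hb
    rw [hom_diff]
    have h1 : ((cnt (A :: ℓ) b : ℕ) : ℤ) = ∑ e ∈ Finset.range (A + 1),
        (if 2 * b - ℓ.sum ≤ e then (fun e : ℕ => hom ℓ (b - e)) e -
          (fun e : ℕ => hom ℓ (b - e)) (e + 1) else 0) := by
      rw [cnt]
      push_cast
      refine Finset.sum_congr rfl fun e _ => ?_
      by_cases h : e ≤ b ∧ b + (b - e) ≤ ℓ.sum
      · rw [if_pos h, if_pos (by omega), ih (b - e) (by omega)]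
        have h3 : ((b - e : ℕ) : ℤ) = b - e := by omega
        rw [h3]
        show _ = hom ℓ (b - e) - hom ℓ (b - ((e + 1 : ℕ) : ℤ))
        congr 2
        push_cast
        ring
      · rw [if_neg h]
        by_cases h2 : 2 * b - ℓ.sum ≤ e
        · rw [if_pos h2]
          have h3 : b < e := by
            by_contra h4
            exact h ⟨by omega, by omega⟩
          show _ = hom ℓ (b - e) - hom ℓ (b - ((e + 1 : ℕ) : ℤ))
          rw [hom_neg ℓ _ (by omega), hom_neg ℓ _ (by omega)]
          simp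
        · rw [if_neg h2]
    rw [h1, tele, if_pos (by omega)]
    show hom ℓ (b - ((2 * b - ℓ.sum : ℕ) : ℤ)) - hom ℓ (b - ((A + 1 : ℕ) : ℤ)) = _
    have h5 : hom ℓ (b - ((2 * b - ℓ.sum : ℕ) : ℤ)) = hom ℓ b := by
      by_cases h : 2 * b ≤ ℓ.sum
      · have : 2 * b - ℓ.sum = 0 := by omega
        rw [this]
        simp
      · have : ((2 * b - ℓ.sum : ℕ) : ℤ) = 2 * b - ℓ.sum := by omega
        rw [this, hom_symm ℓ b]
        congr 1
        ring
    rw [h5]
    push_cast
    rfl

end Pool.Agent.Run7.h547.TK
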