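import Pool.Agent.Run7.h668.TK.Iface

/-! Piece `CVB` of the project TK (MP_0df73a_co). -/

set_option autoImplicit false

namespace Pool.Agent.Run7.h547.TK

open Pool.Agent.Run7.h668.TK
open Polynomial

theorem conv_add (f : ℤ → ℚ) (Y Y' : ℚ[X]) (q : ℤ) :
    conv f (Y + Y') q = conv f Y q + conv f Y' q := by
  unfold conv
  exact Polynomial.sum_add_index _ _ _ (fun i => by simp) (fun i a b => by ring)

theorem conv_mono (f : ℤ → ℚ) (n : ℕ) (a : ℚ) (q : ℤ) :
    conv f (monomial n a) q = a * f (q - n) := by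
  unfold conv
  exact Polynomial.sum_monomial_index _ _ (by simp)

theorem conv_zero (f : ℤ → ℚ) (q : ℤ) : conv f 0 q = 0 := by
  simp [conv]

theorem conv_sum (f : ℤ → ℚ) (k : ℕ) (g : ℕ → ℚ[X]) (q : ℤ) :
    conv f (∑ l ∈ Finset.range k, g l) q = ∑ l ∈ Finset.range k, conv f (g l) q := by
  induction k with
  | zero => simp [conv_zero]
  | succ k ih => rw [Finset.sum_range_succ, conv_add, ih, Finset.sum_range_succ]

theorem conv_C (f : ℤ → ℚ) (c : ℚ) (Y : ℚ[X]) (q : ℤ) :
    conv f (C c * Y) q = c * conv f Y q := by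
  induction Y using Polynomial.induction_on' with
  | add p p' hp hp' => rw [mul_add, conv_add, conv_add, hp, hp', mul_add]
  | monomial n a =>
    rw [C_mul_monomial, conv_mono, conv_mono]
    ring

theorem conv_X (f : ℤ → ℚ) (e : ℕ) (Y : ℚ[X]) (q : ℤ) :
    conv f (X ^ e * Y) q = conv f Y (q - e) := by
  induction Y using Polynomial.induction_on' with
  | add p p' hp hp' => rw [mul_add, conv_add, conv_add, hp, hp']
  | monomial n a =>
    rw [X_pow_mul_monomial, conv_mono, conv_mono]
    congr 2
    push_cast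
    ring

theorem conv_q (f : ℤ → ℚ) (k : ℕ) (Y : ℚ[X]) (q : ℤ) :
    conv f (qn k * Y) q = conv (bk k f) Y q := by
  induction Y using Polynomial.induction_on' with
  | add p p' hp hp' => rw [mul_add, conv_add, conv_add, hp, hp']
  | monomial n a =>
    rw [qn, Finset.sum_mul, conv_sum, conv_mono, bk, Finset.mul_sum]
    refine Finset.sum_congr rfl fun l _ => ?_
    rw [X_pow_mul_monomial, conv_mono]
    congr 2
    push_cast
    ring

theorem t_CVB : S_CVB := by
  refine ⟨conv_add, conv_C, conv_X, conv_q, ?_⟩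
  intro f k q
  have h := conv_q f k (monomial 0 1) q
  rw [conv_mono] at h
  have h1 : (monomial 0 1 : ℚ[X]) = 1 := by simp
  rw [h1, mul_one] at h
  rw [h]
  simp

end Pool.Agent.Run7.h547.TK
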