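import Pool.Agent.Run7.h668.TK.Iface

/-! Piece `EPS` of the project TK (MP_0df73a_co). -/

set_option autoImplicit false

namespace Pool.Agent.Run7.h547.TK

open Pool.Agent.Run7.h668.TK
open Polynomial

theorem eul_neg (m : ℕ) : ∀ i : ℤ, i < 0 → eul m i = 0 := by
  induction m with
  | zero =>
    intro i hi
    simp [eul, hi.ne]
  | succ m ih =>
    intro i hi
    rw [eul, ih i hi, ih (i - 1) (by omega)]
    simp

/-- the power series of the `m`-th powers -/
noncomputable def PP (m : ℕ) : PowerSeries ℚ := PowerSeries.mk fun r => (r : ℚ) ^ m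

/-- the power series of the Eulerian polynomial -/
noncomputable def EE (m : ℕ) : PowerSeries ℚ := PowerSeries.mk fun r => eul m r

theorem PP_succ (m : ℕ) : PP (m + 1) = PowerSeries.X * PowerSeries.derivative ℚ (PP m) := by
  ext r
  cases r with
  | zero => simp [PP]
  | succ r =>
    rw [PowerSeries.coeff_succ_X_mul, PowerSeries.coeff_derivative]
    simp only [PP, PowerSeries.coeff_mk]
    push_cast
    ring

theorem EE_succ (m : ℕ) : EE (m + 1) = PowerSeries.X * (1 - PowerSeries.X) *
    PowerSeries.derivative ℚ (EE m) + ((m : ℚ) + 1) • (PowerSeries.X * EE m) := by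
  have e : PowerSeries.X * (1 - PowerSeries.X) * PowerSeries.derivative ℚ (EE m)
      = PowerSeries.X * PowerSeries.derivative ℚ (EE m) -
        PowerSeries.X * (PowerSeries.X * PowerSeries.derivative ℚ (EE m)) := by ring
  rw [e]
  ext r
  cases r with
  | zero =>
    simp only [EE, PowerSeries.coeff_mk, map_add, map_sub, PowerSeries.coeff_zero_X_mul,
      map_smul, sub_self, smul_zero, add_zero]
    rw [eul]
    simp [eul_neg m (-1) (by norm_num)]
  | succ r =>
    cases r with
    | zero =>
      simp only [EE, PowerSeries.coeff_mk, map_add, map_sub, PowerSeries.coeff_zero_X_mul,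
        PowerSeries.coeff_succ_X_mul, PowerSeries.coeff_derivative,
        map_smul]
      rw [eul]
      simp
      left
      ring
    | succ r =>
      simp only [EE, PowerSeries.coeff_mk, map_add, map_sub, PowerSeries.coeff_succ_X_mul,
        PowerSeries.coeff_derivative, map_smul]
      rw [eul]
      have : (((r + 1 + 1 : ℕ) : ℤ) - 1) = ((r + 1 : ℕ) : ℤ) := by push_cast; ring
      rw [this]
      push_cast
      simp only [smul_eq_mul]
      ring

theorem key (m : ℕ) : (1 - PowerSeries.X) ^ (m + 1) * PP m = EE m := by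
  induction m with
  | zero =>
    have h := PowerSeries.mk_one_mul_one_sub_eq_one ℚ
    have h1 : PP 0 = PowerSeries.mk 1 := by
      ext r
      simp [PP]
    have h2 : EE 0 = 1 := by
      ext r
      simp [EE, eul, PowerSeries.coeff_one]
    rw [h1, h2, zero_add, pow_one, mul_comm]
    exact h
  | succ m ih =>
    have h := congrArg (PowerSeries.derivative ℚ) ih
    rw [Derivation.leibniz, Derivation.leibniz_pow] at h
    have hd : PowerSeries.derivative ℚ (1 - PowerSeries.X : PowerSeries ℚ) = -1 := by
      rw [map_sub, Derivation.map_one_eq_zero, PowerSeries.derivative_X]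
      ring
    rw [hd] at h
    rw [EE_succ, ← h, PP_succ, ← ih]
    simp only [smul_eq_mul, nsmul_eq_mul, Nat.add_sub_cancel]
    rw [PowerSeries.smul_eq_C_mul]
    have hc : PowerSeries.C ((m : ℚ) + 1) = ((m + 1 : ℕ) : PowerSeries ℚ) := by
      push_cast
      rw [map_add, map_one, map_natCast]
    rw [hc]
    ring

theorem t_EPS : S_EPS := by
  intro m q Y
  have e1 : ∑ b ∈ Finset.range (q + 1), ((q - b : ℕ) : ℚ) ^ m *
      (((1 - X) ^ (m + 1) * Y).coeff b) =
      PowerSeries.coeff q ((((1 - X) ^ (m + 1) * Y : ℚ[X]) : PowerSeries ℚ) * PP m) := by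
    rw [PowerSeries.coeff_mul, Finset.Nat.sum_antidiagonal_eq_sum_range_succ_mk]
    refine Finset.sum_congr rfl fun b _ => ?_
    simp only [Polynomial.coeff_coe, PP, PowerSeries.coeff_mk]
    ring
  have e2 : (((1 - X) ^ (m + 1) * Y : ℚ[X]) : PowerSeries ℚ) * PP m =
      (Y : PowerSeries ℚ) * EE m := by
    rw [← key m]
    push_cast
    ring
  rw [e1, e2, PowerSeries.coeff_mul, Finset.Nat.sum_antidiagonal_eq_sum_range_succ_mk]
  have e3 : conv (eul m) Y q = ∑ b ∈ Finset.range (Y.natDegree + 1 + (q + 1)),
      Y.coeff b * eul m ((q : ℤ) - b) := by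
    unfold conv
    exact Polynomial.sum_over_range' Y (fun n => by simp) _ (by omega)
  rw [e3]
  symm
  rw [← Finset.sum_subset (s₁ := Finset.range (q + 1))]
  · refine Finset.sum_congr rfl fun b hb => ?_
    have hb := Finset.mem_range.1 hb
    simp only [Polynomial.coeff_coe, EE, PowerSeries.coeff_mk]
    have : ((q - b : ℕ) : ℤ) = q - b := by omega
    rw [this]
  · intro b hb
    have hb := Finset.mem_range.1 hb
    exact Finset.mem_range.2 (by omega)
  · intro b _ hb
    have hb : ¬ b < q + 1 := fun h => hb (Finset.mem_range.2 h)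
    rw [eul_neg m _ (by omega), mul_zero]

end Pool.Agent.Run7.h547.TK
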