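import Pool.Agent.Run7.h668.TK.Iface

/-! Piece `POZ` of the project TK (MP_0df73a_co). -/

set_option autoImplicit false

namespace Pool.Agent.Run7.h547.TK

open Pool.Agent.Run7.h668.TK
open Polynomial

theorem coeff_list {L : List ℕ} (g : ℕ → ℕ) (b : ℕ) (hL : ∀ a ∈ L, b < g a) :
    ((L.map fun a => (X : ℚ[X]) ^ (g a)).sum).coeff b = 0 := by
  induction L with
  | nil => simp
  | cons a L ih =>
    simp only [List.map_cons, List.sum_cons, coeff_add]
    rw [ih (fun a' ha' => hL a' (List.mem_cons_of_mem _ ha')), coeff_X_pow,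
      if_neg (hL a (by simp)).ne, add_zero]

theorem t_POZ : S_POZ := by
  intro R q hR hq hall
  obtain ⟨a0, ha0⟩ := List.exists_mem_of_ne_nil R hR
  have hsum : q ≤ R.sum := (hall a0 ha0).trans (Nat.sub_le _ _)
  have key : ∀ b ∈ Finset.range q, ((1 : ℚ[X]) - (R.map fun a => X ^ (R.sum - a)).sum
      + ((R.length - 1 : ℕ) : ℚ[X]) * X ^ R.sum).coeff b = if b = 0 then 1 else 0 := by
    intro b hb
    have hb := Finset.mem_range.1 hb
    rw [coeff_add, coeff_sub, coeff_list (fun a => R.sum - a) b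
      (fun a ha => lt_of_lt_of_le hb (hall a ha)), coeff_natCast_mul, coeff_X_pow,
      if_neg (lt_of_lt_of_le hb hsum).ne, coeff_one]
    simp
  rw [Finset.sum_congr rfl key]
  simp [show 0 < q by omega]

end Pool.Agent.Run7.h547.TK
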